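import Mathlib
import Pool.Agent.H14.BlockCount
import Pool.Agent.H14.DPNumeric

set_option autoImplicit false

namespace Pool.Agent.Results.MP_16ff77_co.DoublePower

open Finset Pool.Agent.H14.Shatter Pool.Agent.H14

lemma card_lbl (N L : ℕ) : Fintype.card (Lbl N L) = N * 2 ^ L := by
  unfold Lbl
  rw [Fintype.card_prod, Fintype.card_fin, Fintype.card_fun, Fintype.card_bool, Fintype.card_fin]

lemma main (k : ℕ) (hk : 4 ≤ k) (n N : ℕ) (hn : n ≤ 2 ^ N) (hN4 : 4 ≤ N) :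
    ∃ P : Finset (Equiv.Perm (Fin n)),
      (P.card : ℝ) ≤ (12 * (2 ^ (Nat.clog 2 k + 1) * ((Nat.clog 2 k + 1 : ℕ) : ℝ)) + 5) *
        Real.sqrt (N * Real.log N) ∧
      ∀ X : Finset (Fin n), X.card = k →
        2 ^ (Nat.clog 2 k + 1) ≤
          (P.image (fun ρ => (X ×ˢ X).filter (fun p => ρ p.1 < ρ p.2))).card := by
  obtain ⟨hl1, hlN, hss, hs2, hls, hsN⟩ := DPNumeric.basics N hN4
  obtain ⟨s, hs⟩ : ∃ s : ℝ, s = Real.sqrt (N * Real.log N) := ⟨_, rfl⟩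
  rw [← hs] at hss hs2 hls hsN ⊢
  obtain ⟨L, hL⟩ : ∃ L : ℕ, L = ⌈s⌉₊ := ⟨_, rfl⟩
  have hLs : s ≤ L := hL ▸ Nat.le_ceil s
  have hLs' : (L : ℝ) ≤ s + 1 := hL ▸ (Nat.ceil_lt_add_one (by linarith)).le
  have hL0 : 0 < L := hL ▸ Nat.ceil_pos.mpr (by linarith)
  obtain ⟨h, hh⟩ : ∃ h : ℕ, h = Nat.clog 2 k := ⟨_, rfl⟩
  have hT1 : 1 ≤ Fintype.card (Lbl N L) := by
    rw [card_lbl]
    exact Nat.one_le_iff_ne_zero.mpr (Nat.mul_ne_zero (by omega) (by positivity))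
  have hT2 : 1 ≤ Fintype.card (Fin (L + N)) := by
    rw [Fintype.card_fin]; omega
  obtain ⟨F1, hF1, hF1c⟩ := exists_universal (Lbl N L) hT1 (h + 1)
  obtain ⟨F0, hF0, hF0c⟩ := exists_universal (Lbl N L) hT1 h
  obtain ⟨G, hG, hGc⟩ := exists_universal (Fin (L + N)) hT2 h
  rw [hh] at hF1 hF0 hG
  obtain ⟨P, hPc, hP⟩ := family (k := k) hn hL0 hk F1 F0 hF1 hF0 G hG
  refine ⟨P, ?_, hP⟩
  rw [← hh]
  rw [card_lbl] at hF1c hF0c
  rw [Fintype.card_fin] at hGc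
  have hlogT := DPNumeric.logT N L s hN4 hls hs2 hLs'
  have hlogG := DPNumeric.logG N L hN4 (by linarith)
  have hlogT0 : 0 ≤ Real.log (2 * ((N * 2 ^ L : ℕ) : ℝ)) := by
    apply Real.log_nonneg
    have : (1 : ℝ) ≤ ((N * 2 ^ L : ℕ) : ℝ) := by
      rw [card_lbl] at hT1
      exact_mod_cast hT1
    linarith
  have hlogG0 : 0 ≤ Real.log (2 * ((L + N : ℕ) : ℝ)) := by
    apply Real.log_nonneg
    have : (1 : ℝ) ≤ ((L + N : ℕ) : ℝ) := by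
      rw [Fintype.card_fin] at hT2
      exact_mod_cast hT2
    linarith
  obtain ⟨A, hA⟩ : ∃ A : ℝ, A = 2 ^ (h + 1) * ((h + 1 : ℕ) : ℝ) := ⟨_, rfl⟩
  have hA0 : 0 ≤ A := by rw [hA]; positivity
  have hhA : (2 : ℝ) ^ h * h ≤ A := by
    rw [hA]
    have h1 : (2 : ℝ) ^ h ≤ 2 ^ (h + 1) := pow_le_pow_right₀ (by norm_num) (by omega)
    have h2 : (h : ℝ) ≤ ((h + 1 : ℕ) : ℝ) := by push_cast; linarith
    exact mul_le_mul h1 h2 (by positivity) (by positivity)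
  rw [← hA] at hF1c ⊢
  have hF1c' : (F1.card : ℝ) ≤ A * (3 * s) + 2 := by
    have h1 := mul_le_mul_of_nonneg_left hlogT hA0
    linarith
  have hF0c' : (F0.card : ℝ) ≤ A * (3 * s) + 2 := by
    have h1 := mul_le_mul hhA hlogT hlogT0 hA0
    linarith
  have hGc' : (G.card : ℝ) ≤ A * (3 * Real.log N) + 2 := by
    have h1 := mul_le_mul hhA hlogG hlogG0 hA0
    linarith
  have hNr : (0 : ℝ) ≤ N := Nat.cast_nonneg N
  have hNL : ((N / L : ℕ) : ℝ) ≤ N / s := by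
    have h1 : ((N / L : ℕ) : ℝ) ≤ (N : ℝ) / L := Nat.cast_div_le
    have h2 : (N : ℝ) / L ≤ N / s := div_le_div_of_nonneg_left hNr (by linarith) hLs
    exact h1.trans h2
  have hPr : (P.card : ℝ) ≤ F1.card + F0.card + (((N / L : ℕ) : ℝ) + 1) * G.card := by
    have h1 : (P.card : ℝ) ≤ ((F1.card + F0.card + (N / L + 1) * G.card : ℕ) : ℝ) :=
      Nat.cast_le.mpr hPc
    rw [Nat.cast_add, Nat.cast_add, Nat.cast_mul, Nat.cast_add, Nat.cast_one] at h1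
    exact h1
  exact DPNumeric.tot A N (Real.log N) s F1.card F0.card G.card ((N / L : ℕ) : ℝ) P.card hA0
    hss hs2 hls hl1 hF1c' hF0c' hGc' (Nat.cast_nonneg _) hNL hNr hPr

theorem result : ∀ k : ℕ, 4 ≤ k → ∃ C : ℝ, 0 < C ∧ ∀ n : ℕ, 16 ≤ n →
    ∃ P : Finset (Equiv.Perm (Fin n)),
      (P.card : ℝ) ≤ C * Real.sqrt (Real.log n * Real.log (Real.log n)) ∧
      ∀ X : Finset (Fin n), X.card = k →
        2 ^ (Nat.clog 2 k + 1) ≤
          (P.image (fun ρ => (X ×ˢ X).filter (fun p => ρ p.1 < ρ p.2))).card := by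
  intro k hk
  obtain ⟨B, hB⟩ : ∃ B : ℝ,
      B = 12 * (2 ^ (Nat.clog 2 k + 1) * ((Nat.clog 2 k + 1 : ℕ) : ℝ)) + 5 := ⟨_, rfl⟩
  have hB0 : 0 < B := by rw [hB]; positivity
  refine ⟨B * 2, by positivity, ?_⟩
  intro n hn
  have hnN : n ≤ 2 ^ (Nat.clog 2 n) := Nat.le_pow_clog (by norm_num) n
  have hN4 : 4 ≤ Nat.clog 2 n := by
    by_contra hlt
    push Not at hlt
    have h1 : 2 ^ (Nat.clog 2 n) ≤ 2 ^ 3 := Nat.pow_le_pow_right (by norm_num) (by omega)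
    omega
  obtain ⟨P, hPc, hP⟩ := main k hk n (Nat.clog 2 n) hnN hN4
  rw [← hB] at hPc
  refine ⟨P, ?_, hP⟩
  have hfin := DPNumeric.final n hn (Nat.clog 2 n) rfl
  calc (P.card : ℝ) ≤ B * Real.sqrt ((Nat.clog 2 n : ℕ) * Real.log (Nat.clog 2 n : ℕ)) := hPc
    _ ≤ B * (2 * Real.sqrt (Real.log n * Real.log (Real.log n))) :=
        mul_le_mul_of_nonneg_left hfin hB0.le
    _ = B * 2 * Real.sqrt (Real.log n * Real.log (Real.log n)) := by ring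

end Pool.Agent.Results.MP_16ff77_co.DoublePower
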