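import Mathlib
import Pool.Agent.H43.PS.Final

/-!
# MP_16ff77_co: lower bounds close to `log n` for families shattering all `k`-sets
-/

set_option autoImplicit false

namespace Pool.Agent.Results.MP_16ff77_co.NearLogLower

open Finset

theorem Z_eq (U W : ℕ) : ∀ s b : ℕ, H43.PS.Z U W s b = s.choose b * U ^ (s - b) * W ^ b := by
  intro s
  induction s with
  | zero =>
    intro b
    cases b with
    | zero => simp [H43.PS.Z]
    | succ b => simp [H43.PS.Z]
  | succ s ih =>
    intro b
    cases b with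
    | zero =>
      rw [H43.PS.Z, ih]
      simp [pow_succ]
      ring
    | succ b =>
      rw [H43.PS.Z, ih, ih, Nat.choose_succ_succ]
      rcases Nat.lt_or_ge b s with h | h
      · have h1 : s - b = s - (b + 1) + 1 := by omega
        have h2 : s + 1 - (b + 1) = s - (b + 1) + 1 := by omega
        rw [h1, h2, pow_succ, pow_succ]
        ring
      · rw [Nat.choose_eq_zero_of_lt (show s < b + 1 by omega)]
        have h2 : s + 1 - (b + 1) = s - b := by omega
        rw [h2, pow_succ]
        ring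

/-- **Near-logarithmic lower bound.**  Let `k = s * 2 ^ r + e` with `s, e ≥ 1` and let `J ≥ 0`.
If `t > 2 ^ (e - 1) * ∑ b ≤ J, (s choose b) * (2 ^ (r + 1)) ^ (s - b) * ((2 ^ r + 1)!) ^ b`,
then every family `P` of permutations of `[n]` which `t`-shatters all `k`-subsets `X` of `[n]` has
at least `c * (log n) ^ ((J + 1) / (J + 2))` members, with `c > 0` depending only on
`r, s, e, J`.  The ordering of `X` induced by `ρ` is recorded as the set of pairs `(x, y)` of
elements of `X` with `ρ x < ρ y`.

For instance `r = 2`, `s = 7`, `J = 1`: for every `k ≥ 29` and `t = 2 ^ (k - 1)` the exponent is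
`2 / 3`; see `H43.PS.partA`, `partB`, `partC` for `t = 2 ^ (k - 1)`, `k ≥ 36 J + 1` and for all
`t ≥ 2 ^ (20 (J + 1) √k log k)`. -/
theorem result : ∀ r s e J : ℕ, 1 ≤ s → 1 ≤ e → ∃ c : ℝ, 0 < c ∧
    ∀ n t : ℕ, s * 2 ^ r + e ≤ n →
      2 ^ (e - 1) * ∑ b ∈ range (J + 1),
        s.choose b * (2 ^ (r + 1)) ^ (s - b) * ((2 ^ r + 1).factorial) ^ b < t →
      ∀ P : Finset (Equiv.Perm (Fin n)),
        (∀ X : Finset (Fin n), X.card = s * 2 ^ r + e →
          t ≤ (P.image (fun ρ => (X ×ˢ X).filter (fun p => ρ p.1 < ρ p.2))).card) →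
        c * (Real.log n) ^ (((J : ℝ) + 1) / ((J : ℝ) + 2)) ≤ P.card := by
  intro r s e J hs he
  obtain ⟨c, hc, h⟩ := H43.PS.general r s e J hs he
  refine ⟨c, hc, fun n t hk ht P hP => h t n ?_ hk P hP⟩
  simpa only [Z_eq] using ht

end Pool.Agent.Results.MP_16ff77_co.NearLogLower
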