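import Pool.Agent.H14.Universal
import Pool.Agent.H35.SH.Fam
import Pool.Agent.H35.SH.Num
import Pool.Agent.H35.SH.Size

set_option autoImplicit false

namespace Pool.Agent.Results.MP_16ff77_co.PolynomialPatterns

open Finset Pool.Agent.H14.Shatter Pool.Agent.H35.SH

theorem log_le (x : ℕ) (hx : 2 ≤ x) : Real.log x ≤ 2 * (Nat.log 2 x : ℕ) := by
  have h1 : x < 2 ^ (Nat.log 2 x + 1) := Nat.lt_pow_succ_log_self (by norm_num) x
  have h2 : (1 : ℝ) ≤ (Nat.log 2 x : ℕ) := by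
    exact_mod_cast Nat.log_pos (by norm_num) hx
  have h3 : Real.log x ≤ Real.log ((2 : ℝ) ^ (Nat.log 2 x + 1)) := by
    apply Real.log_le_log (by exact_mod_cast (by omega : 0 < x))
    exact_mod_cast h1.le
  rw [Real.log_pow] at h3
  have h4 : Real.log 2 ≤ 1 := by
    have := Real.log_two_lt_d9
    linarith
  have h5 : ((Nat.log 2 x + 1 : ℕ) : ℝ) * Real.log 2 ≤ ((Nat.log 2 x + 1 : ℕ) : ℝ) * 1 :=
    mul_le_mul_of_nonneg_left h4 (Nat.cast_nonneg _)
  push_cast at h3 h5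
  linarith

theorem result : ∀ A : ℕ, ∃ k0 : ℕ, ∀ k : ℕ, k0 ≤ k → ∃ C : ℝ, 0 < C ∧ ∀ n : ℕ, 3 ≤ n →
    ∃ P : Finset (Equiv.Perm (Fin n)),
      (P.card : ℝ) ≤ C * (Real.log n) ^ (1 - 1 / (1 + Real.logb 2 k)) ∧
      ∀ X : Finset (Fin n), X.card = k →
        k ^ A ≤ (P.image (fun ρ => (X ×ˢ X).filter (fun p => ρ p.1 < ρ p.2))).card := by
  intro A
  obtain ⟨k0, h0⟩ := numerics A
  refine ⟨max k0 2, fun k hk => ?_⟩
  obtain ⟨m, D, hm1, hD, hch, h1, h2⟩ := h0 k ((le_max_left _ _).trans hk)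
  have hk2 : 2 ≤ k := (le_max_right _ _).trans hk
  obtain ⟨C, hC, hs⟩ := sizes (2 ^ m * m * 2) D
  refine ⟨C, hC, fun n hn => ?_⟩
  obtain ⟨T, B, hT, hB, hnB, hb⟩ := hs n hn
  have hTB : 1 ≤ T * B := Nat.mul_pos hT hB
  obtain ⟨e⟩ : Nonempty (Fin n ↪ Wd T B) := by
    apply Function.Embedding.nonempty_of_card_le
    rw [Fintype.card_fin, Fintype.card_fun, Fintype.card_fin, Fintype.card_fin]
    exact hnB
  obtain ⟨F, hF, hFc⟩ := exists_universal (Fin T × Fin B)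
    (by rw [Fintype.card_prod, Fintype.card_fin, Fintype.card_fin]; exact hTB) m
  rw [Fintype.card_prod, Fintype.card_fin, Fintype.card_fin] at hFc
  obtain ⟨P, hPc, hP⟩ := family (k := k) e e.injective F hF hch
  refine ⟨P, ?_, fun X hX => ?_⟩
  · have h3 := log_le (2 * (T * B)) (by omega)
    have h4 : (F.card : ℝ) ≤ 2 ^ m * m * (2 * (Nat.log 2 (2 * (T * B)) : ℕ)) + 2 := by
      refine hFc.trans ?_
      have h5 : (2 : ℝ) * ((T * B : ℕ) : ℝ) = ((2 * (T * B) : ℕ) : ℝ) := by push_cast; ring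
      rw [h5]
      have h6 := mul_le_mul_of_nonneg_left h3 (by positivity : (0 : ℝ) ≤ 2 ^ m * m)
      linarith
    have h7 : (P.card : ℝ) ≤ F.card + (2 * T : ℝ) ^ (D + 1) := by exact_mod_cast hPc
    have h8 : (P.card : ℝ) ≤
        ((2 ^ m * m * 2 * Nat.log 2 (2 * (T * B)) + 2 + (2 * T) ^ (D + 1) : ℕ) : ℝ) := by
      push_cast
      linarith
    have hlog : 1 ≤ Real.log n := by
      rw [Real.le_log_iff_exp_le (by exact_mod_cast (by omega : 0 < n))]
      have h9 := Real.exp_one_lt_d9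
      have h10 : (3 : ℝ) ≤ n := by exact_mod_cast hn
      linarith
    have hexp : 1 - 1 / ((D : ℝ) + 2) ≤ 1 - 1 / (1 + Real.logb 2 k) := by
      have h9 : ((D : ℝ) + 1) ≤ Real.logb 2 k := by
        have h10 : ((D + 1 : ℕ) : ℝ) ≤ (Nat.log 2 k : ℕ) := by exact_mod_cast hD
        have h11 : ((Nat.log 2 k : ℕ) : ℝ) ≤ Real.logb 2 k := by
          have := Real.natLog_le_logb k 2
          exact_mod_cast this
        push_cast at h10
        linarith
      have h12 : 1 / (1 + Real.logb 2 k) ≤ 1 / ((D : ℝ) + 2) := by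
        apply one_div_le_one_div_of_le
        · positivity
        · linarith
      linarith
    calc (P.card : ℝ) ≤ _ := h8
      _ ≤ C * (Real.log n) ^ (1 - 1 / ((D : ℝ) + 2)) := hb
      _ ≤ C * (Real.log n) ^ (1 - 1 / (1 + Real.logb 2 k)) :=
          mul_le_mul_of_nonneg_left (Real.rpow_le_rpow_of_exponent_le hlog hexp) hC.le
  · rcases hP X hX with h3 | h3
    · exact h1.trans h3
    · exact h2.trans h3

end Pool.Agent.Results.MP_16ff77_co.PolynomialPatterns
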