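import Mathlib
import Pool.Agent.H14.SX.Ind
import Pool.Agent.H14.SX.Blk
import Pool.Agent.H14.SX.Num

set_option autoImplicit false

namespace Pool.Agent.Results.MP_16ff77_co.SixSets

open Finset Pool.Agent.H14.SX

theorem result :
    ∃ C : ℝ, 0 < C ∧ ∀ n : ℕ, 16 ≤ n →
      ∃ P : Finset (Equiv.Perm (Fin n)),
        (P.card : ℝ) ≤ C * (Real.log n) ^ ((8 : ℝ) / 9) * Real.log (Real.log n) ∧
        ∀ X : Finset (Fin n), X.card = 6 →
          32 ≤ (P.image (fun ρ => (X ×ˢ X).filter (fun p => ρ p.1 < ρ p.2))).card := by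
  obtain ⟨C, hC, h⟩ := num cc (by unfold cc; positivity)
  refine ⟨C, hC, ?_⟩
  intro n hn
  obtain ⟨T, L, hL, hnT, hb⟩ := h n hn
  obtain ⟨B, hM, hE, hm⟩ := exists_block (T ^ 2) (T ^ 2) L hL
  have hH : (0 : ℤ) ≤ 2 ^ (L + 1) := by positivity
  have hV : (0 : ℤ) ≤ (((T ^ 2 : ℕ) : ℤ) + 1) * 2 ^ (T ^ 2 * L) * 2 ^ ((L + 1) * T ^ 2) := by
    positivity
  obtain ⟨A, Rd, Tot, hG, _, _, _, hcov⟩ := exists_sys B hH hV hm T
  have hcard : Fintype.card (Fin ((T ^ 2 + 1) * T ^ 2 * L) → Bool) = 2 ^ MM T L := by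
    rw [Fintype.card_fun, Fintype.card_bool, Fintype.card_fin]
    rfl
  have hn2 : n ≤ Fintype.card (Pw (Fin ((T ^ 2 + 1) * T ^ 2 * L) → Bool) T) := by
    rw [card_Pw, hcard, ← pow_mul, mul_comm]
    exact hnT
  obtain ⟨P, hP, hP2⟩ := hcov.perms hn2 (m := 32) (fun S hS => by
    have := hG.P S hS.le
    rw [hS] at this
    exact this)
  refine ⟨P, ?_, hP2⟩
  refine hP.trans (le_trans (le_of_eq ?_) hb)
  have e1 : 2 * T * B.M * (2 * ((((T ^ 2 : ℕ) : ℤ) + 1) * 2 ^ (T ^ 2 * L) *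
      2 ^ ((L + 1) * T ^ 2)) + 1).toNat = N1 T L := by
    rw [hM]; rfl
  have e2 : 2 * T * B.M + 1 = N2 T L := by
    rw [hM]; rfl
  have e3 : 3 * T * Fintype.card (Fin ((T ^ 2 + 1) * T ^ 2 * L) → Bool) = N3 T L := by
    rw [hcard]; rfl
  have e4 : 2 * (T ^ 2 + 1) * B.E * T ^ 2 + 2 * T = bb T := by
    rw [hE]; rfl
  rw [e1, e2, e3, e4]

end Pool.Agent.Results.MP_16ff77_co.SixSets
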